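import Mathlib

/-!
# Large rigid maximal sets of given diameter in the hypercube

For every `r ≥ 5` and every `n ≥ r + 2` there is a rigid, maximally diameter-`r` subset of the
`n`-dimensional cube with at least `37 * 2 ^ (r - 5) > 2 ^ r` points.
-/

namespace Pool.Agent.Results.MP_b9e9b1_co.LargeRigid

/-- The `n`-dimensional cube (the two values of a coordinate are the two Booleans). -/
abbrev Q (n : ℕ) : Type := Fin n → Bool

/-- Diameter of a finite subset of the cube for the Hamming distance. -/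
def diam {n : ℕ} (A : Finset (Q n)) : ℕ :=
  A.sup fun x => A.sup fun y => hammingDist x y

/-- `A` is maximally diameter-`r`. -/
def MaxDiam {n : ℕ} (r : ℕ) (A : Finset (Q n)) : Prop :=
  diam A = r ∧ ∀ x, x ∉ A → r < diam (insert x A)

/-- `A` is rigid. -/
def Rigid {n : ℕ} (A : Finset (Q n)) : Prop :=
  ∀ a ∈ A, (A.sup fun x => hammingDist x a) = diam A

/-- `b' n r`: the largest cardinality of a rigid, maximally diameter-`r` subset of the cube. -/
noncomputable def b' (n r : ℕ) : ℕ :=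
  sSup {k | ∃ A : Finset (Q n), MaxDiam r A ∧ Rigid A ∧ A.card = k}

/-- Working form of the two properties. -/
structure Good {n : ℕ} (r : ℕ) (A : Finset (Q n)) : Prop where
  ne : A.Nonempty
  le : ∀ x ∈ A, ∀ y ∈ A, hammingDist x y ≤ r
  rigid : ∀ a ∈ A, ∃ x ∈ A, hammingDist x a = r
  max : ∀ x, x ∉ A → ∃ a ∈ A, r < hammingDist x a

theorem Good.diam_eq {n r : ℕ} {A : Finset (Q n)} (h : Good r A) : diam A = r := by
  apply le_antisymm
  · exact Finset.sup_le fun x hx => Finset.sup_le fun y hy => h.le x hx y hy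
  · obtain ⟨a, ha⟩ := h.ne
    obtain ⟨x, hx, hxa⟩ := h.rigid a ha
    rw [← hxa]
    exact le_trans (Finset.le_sup (f := fun y => hammingDist x y) ha)
      (Finset.le_sup (f := fun x => A.sup fun y => hammingDist x y) hx)

theorem Good.maxDiam {n r : ℕ} {A : Finset (Q n)} (h : Good r A) : MaxDiam r A := by
  refine ⟨h.diam_eq, fun x hx => ?_⟩
  obtain ⟨a, ha, hr⟩ := h.max x hx
  refine lt_of_lt_of_le hr ?_
  exact le_trans
    (Finset.le_sup (f := fun y => hammingDist x y) (Finset.mem_insert_of_mem ha))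
    (Finset.le_sup (f := fun x' => (insert x A).sup fun y => hammingDist x' y)
      (Finset.mem_insert_self x A))

theorem Good.isRigid {n r : ℕ} {A : Finset (Q n)} (h : Good r A) : Rigid A := by
  intro a ha
  rw [h.diam_eq]
  apply le_antisymm
  · exact Finset.sup_le fun x hx => h.le x hx a ha
  · obtain ⟨x, hx, hxa⟩ := h.rigid a ha
    rw [← hxa]
    exact Finset.le_sup (f := fun x => hammingDist x a) hx

theorem dist_cons {n : ℕ} (a b : Bool) (x y : Q n) :
    hammingDist (Fin.cons a x : Q (n + 1)) (Fin.cons b y) =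
      (if a = b then 0 else 1) + hammingDist x y := by
  simp only [hammingDist, Finset.card_filter, Fin.sum_univ_succ, Fin.cons_zero, Fin.cons_succ]
  congr 1
  split_ifs <;> simp_all

/-- Adding a constant coordinate. -/
def addPt {n : ℕ} (A : Finset (Q n)) : Finset (Q (n + 1)) :=
  A.image fun x => (Fin.cons true x : Q (n + 1))

/-- Adding a free coordinate. -/
def addFree {n : ℕ} (A : Finset (Q n)) : Finset (Q (n + 1)) :=
  (Finset.univ ×ˢ A).image fun p => (Fin.cons p.1 p.2 : Q (n + 1))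

theorem mem_addPt {n : ℕ} {A : Finset (Q n)} {b : Bool} {x : Q n} :
    (Fin.cons b x : Q (n + 1)) ∈ addPt A ↔ b = true ∧ x ∈ A := by
  simp only [addPt, Finset.mem_image]
  constructor
  · rintro ⟨y, hy, h⟩
    obtain ⟨h1, h2⟩ := Fin.cons_injective2 h
    subst h1 h2
    exact ⟨rfl, hy⟩
  · rintro ⟨rfl, hx⟩
    exact ⟨x, hx, rfl⟩

theorem mem_addFree {n : ℕ} {A : Finset (Q n)} {b : Bool} {x : Q n} :
    (Fin.cons b x : Q (n + 1)) ∈ addFree A ↔ x ∈ A := by
  simp only [addFree, Finset.mem_image, Finset.mem_product, Finset.mem_univ, true_and,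
    Prod.exists]
  constructor
  · rintro ⟨c, y, hy, h⟩
    obtain ⟨h1, h2⟩ := Fin.cons_injective2 h
    subst h1 h2
    exact hy
  · intro hx
    exact ⟨b, x, hx, rfl⟩

theorem exists_cons {n : ℕ} (x : Q (n + 1)) : ∃ (b : Bool) (y : Q n), x = Fin.cons b y :=
  ⟨x 0, Fin.tail x, (Fin.cons_self_tail x).symm⟩

theorem Good.addPt {n r : ℕ} {A : Finset (Q n)} (h : Good r A) : Good r (addPt A) where
  ne := h.ne.image _
  le := by
    intro x hx y hy
    obtain ⟨b, x, rfl⟩ := exists_cons x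
    obtain ⟨c, y, rfl⟩ := exists_cons y
    obtain ⟨rfl, hx'⟩ := mem_addPt.1 hx
    obtain ⟨rfl, hy'⟩ := mem_addPt.1 hy
    simpa [dist_cons] using h.le x hx' y hy'
  rigid := by
    intro a ha
    obtain ⟨b, a, rfl⟩ := exists_cons a
    obtain ⟨rfl, ha'⟩ := mem_addPt.1 ha
    obtain ⟨x, hx, hxa⟩ := h.rigid a ha'
    exact ⟨Fin.cons true x, mem_addPt.2 ⟨rfl, hx⟩, by simpa [dist_cons] using hxa⟩
  max := by
    intro x hx
    obtain ⟨b, x, rfl⟩ := exists_cons x
    by_cases hxA : x ∈ A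
    · have hb : b ≠ true := fun hb => hx (mem_addPt.2 ⟨hb, hxA⟩)
      obtain ⟨y, hy, hyx⟩ := h.rigid x hxA
      refine ⟨Fin.cons true y, mem_addPt.2 ⟨rfl, hy⟩, ?_⟩
      rw [dist_cons, if_neg hb, hammingDist_comm, hyx]
      omega
    · obtain ⟨a, ha, hr⟩ := h.max x hxA
      refine ⟨Fin.cons true a, mem_addPt.2 ⟨rfl, ha⟩, ?_⟩
      rw [dist_cons]
      omega

theorem Good.addFree {n r : ℕ} {A : Finset (Q n)} (h : Good r A) :
    Good (r + 1) (addFree A) where
  ne := by
    obtain ⟨a, ha⟩ := h.ne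
    exact ⟨Fin.cons true a, mem_addFree.2 ha⟩
  le := by
    intro x hx y hy
    obtain ⟨b, x, rfl⟩ := exists_cons x
    obtain ⟨c, y, rfl⟩ := exists_cons y
    have h1 := h.le x (mem_addFree.1 hx) y (mem_addFree.1 hy)
    rw [dist_cons]
    split_ifs <;> omega
  rigid := by
    intro a ha
    obtain ⟨b, a, rfl⟩ := exists_cons a
    obtain ⟨x, hx, hxa⟩ := h.rigid a (mem_addFree.1 ha)
    refine ⟨Fin.cons (!b) x, mem_addFree.2 hx, ?_⟩
    rw [dist_cons, hxa, if_neg (by simp)]
    omega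
  max := by
    intro x hx
    obtain ⟨b, x, rfl⟩ := exists_cons x
    obtain ⟨a, ha, hr⟩ := h.max x (fun hxA => hx (mem_addFree.2 hxA))
    refine ⟨Fin.cons (!b) a, mem_addFree.2 ha, ?_⟩
    rw [dist_cons, if_neg (by simp)]
    omega

theorem card_addPt {n : ℕ} (A : Finset (Q n)) : (addPt A).card = A.card :=
  Finset.card_image_of_injective _ fun _ _ h => (Fin.cons_injective2 h).2

theorem card_addFree {n : ℕ} (A : Finset (Q n)) : (addFree A).card = 2 * A.card := by
  rw [addFree, Finset.card_image_of_injective, Finset.card_product]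
  · simp
  · rintro ⟨a, x⟩ ⟨b, y⟩ h
    obtain ⟨h1, h2⟩ := Fin.cons_injective2 h
    simp_all

/-! ### The base case: 37 points in the 7-cube, diameter 5 -/

/-- The points of the base example, as binary numbers. -/
def L : List ℕ := [4, 5, 8, 9, 12, 14, 15, 28, 29, 44, 45, 50, 64, 65, 68, 70, 71, 72, 74, 75,
  78, 84, 85, 88, 89, 92, 94, 95, 100, 101, 104, 105, 108, 110, 111, 124, 125]

/-- Binary digits. -/
def bits (k : ℕ) : Q 7 := fun i => k.testBit i

/-- Hamming distance of two numbers on the seven lowest digits. -/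
def dd (k l : ℕ) : ℕ :=
  (if k.testBit 0 ≠ l.testBit 0 then 1 else 0) + (if k.testBit 1 ≠ l.testBit 1 then 1 else 0) +
  (if k.testBit 2 ≠ l.testBit 2 then 1 else 0) + (if k.testBit 3 ≠ l.testBit 3 then 1 else 0) +
  (if k.testBit 4 ≠ l.testBit 4 then 1 else 0) + (if k.testBit 5 ≠ l.testBit 5 then 1 else 0) +
  (if k.testBit 6 ≠ l.testBit 6 then 1 else 0)

theorem dist_bits (k l : ℕ) : hammingDist (bits k) (bits l) = dd k l := by
  unfold hammingDist
  rw [Finset.card_filter, Fin.sum_univ_seven]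
  rfl

theorem exists_bits (x : Q 7) : ∃ k < 128, bits k = x := by
  refine ⟨Nat.ofBits x, by simpa using Nat.ofBits_lt_two_pow x, ?_⟩
  funext i
  simp [bits, Nat.testBit_ofBits_lt]

/-- The base example. -/
def A₀ : Finset (Q 7) := (L.map bits).toFinset

theorem L_le : ∀ k ∈ L, ∀ l ∈ L, dd k l ≤ 5 := by decide +kernel

theorem L_rigid : ∀ k ∈ L, ∃ l ∈ L, dd l k = 5 := by decide +kernel

theorem L_max : ∀ k < 128, k ∉ L → ∃ l ∈ L, 5 < dd k l := by decide +kernel

theorem L_inj : ∀ k ∈ L, ∀ l ∈ L, dd k l = 0 → k = l := by decide +kernel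

theorem good_A₀ : Good 5 A₀ where
  ne := ⟨bits 4, by simp [A₀, L]⟩
  le := by
    intro x hx y hy
    simp only [A₀, List.mem_toFinset, List.mem_map] at hx hy
    obtain ⟨k, hk, rfl⟩ := hx
    obtain ⟨l, hl, rfl⟩ := hy
    rw [dist_bits]
    exact L_le k hk l hl
  rigid := by
    intro x hx
    simp only [A₀, List.mem_toFinset, List.mem_map] at hx
    obtain ⟨k, hk, rfl⟩ := hx
    obtain ⟨l, hl, h⟩ := L_rigid k hk
    refine ⟨bits l, ?_, by rw [dist_bits]; exact h⟩
    simp only [A₀, List.mem_toFinset, List.mem_map]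
    exact ⟨l, hl, rfl⟩
  max := by
    intro x hx
    obtain ⟨k, hk, rfl⟩ := exists_bits x
    have hkL : k ∉ L := by
      intro h
      apply hx
      simp only [A₀, List.mem_toFinset, List.mem_map]
      exact ⟨k, h, rfl⟩
    obtain ⟨l, hl, h⟩ := L_max k hk hkL
    refine ⟨bits l, ?_, by rw [dist_bits]; exact h⟩
    simp only [A₀, List.mem_toFinset, List.mem_map]
    exact ⟨l, hl, rfl⟩

theorem card_A₀ : A₀.card = 37 := by
  have hnd : (L.map bits).Nodup := by
    refine List.Nodup.map_on ?_ (by decide)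
    intro k hk l hl h
    apply L_inj k hk l hl
    rw [← dist_bits, h, hammingDist_self]
  rw [A₀, List.toFinset_card_of_nodup hnd]
  simp [L]

theorem exists_good (r n : ℕ) (hr : 5 ≤ r) (hn : r + 2 ≤ n) :
    ∃ A : Finset (Q n), Good r A ∧ A.card = 37 * 2 ^ (r - 5) := by
  induction n, hn using Nat.le_induction with
  | base =>
    induction r, hr using Nat.le_induction with
    | base => exact ⟨A₀, good_A₀, by rw [card_A₀]; norm_num⟩
    | succ r hr ih =>
      obtain ⟨A, hA, hc⟩ := ih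
      refine ⟨addFree A, hA.addFree, ?_⟩
      rw [card_addFree, hc, show r + 1 - 5 = (r - 5) + 1 by omega, pow_succ]
      ring
  | succ n hn ih =>
    obtain ⟨A, hA, hc⟩ := ih
    exact ⟨addPt A, hA.addPt, by rw [card_addPt, hc]⟩

theorem le_b' {n r : ℕ} {A : Finset (Q n)} (h : Good r A) : A.card ≤ b' n r := by
  apply le_csSup
  · refine ⟨Fintype.card (Q n), ?_⟩
    rintro k ⟨B, -, -, rfl⟩
    exact Finset.card_le_univ B
  · exact ⟨A, h.maxDiam, h.isRigid, rfl⟩

/-- For all `r ≥ 5` and `n ≥ r + 2` the largest rigid, maximally diameter-`r` subset of the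
`n`-cube has at least `37 * 2 ^ (r - 5)` points, hence more than `2 ^ r`; in particular the
formula `b' n r = 2 ^ r` is not valid for all `n ≥ r ≥ 0`. -/
theorem result :
    (∀ r n : ℕ, 5 ≤ r → r + 2 ≤ n → 37 * 2 ^ (r - 5) ≤ b' n r ∧ 2 ^ r < b' n r) ∧
      ¬ ∀ n r : ℕ, r ≤ n → b' n r = 2 ^ r := by
  have key : ∀ r n : ℕ, 5 ≤ r → r + 2 ≤ n →
      37 * 2 ^ (r - 5) ≤ b' n r ∧ 2 ^ r < b' n r := by
    intro r n hr hn
    obtain ⟨A, hA, hc⟩ := exists_good r n hr hn
    have h1 := le_b' hA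
    rw [hc] at h1
    refine ⟨h1, lt_of_lt_of_le ?_ h1⟩
    obtain ⟨s, rfl⟩ := Nat.exists_eq_add_of_le hr
    rw [show 5 + s - 5 = s by omega, pow_add]
    have : 0 < 2 ^ s := by positivity
    omega
  refine ⟨key, fun h => ?_⟩
  have h1 := (key 5 7 le_rfl le_rfl).2
  rw [h 7 5 (by norm_num)] at h1
  exact lt_irrefl _ h1

end Pool.Agent.Results.MP_b9e9b1_co.LargeRigid
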